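import Pool.Agent.N116.EW.Sep
import Pool.Agent.H12R2.Sep.RectDual
import Pool.Agent.TH291.NW.Low1

/-!
EW14: planar duality in the part of the rectangle left of the column `m`, with the wired arc as a
terminal.
-/

set_option autoImplicit false

namespace Pool.Agent.N433.EW

open H974 H12S H389NS H984N H984P H342P Finset
open Pool.Agent.N116.EW

/-- The wired edges of the part of the rectangle left of the column `m`. -/
noncomputable def wE (D : Dm) (m : ℤ) : Finset Edg := by
  classical exact (RE D.l m 0 D.h).filter (fun e => e ∈ D.wir)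

lemma mem_wE {D : Dm} {m : ℤ} {e : Edg} : e ∈ wE D m ↔ e ∈ RE D.l m 0 D.h ∧ e ∈ D.wir := by
  classical
  unfold wE
  rw [Finset.mem_filter]

/-- Both ends of a wired edge are on the wired arc. -/
lemma wE_ends {D : Dm} (hD : D.Ok) {m : ℤ} {e : Edg} (he : e ∈ wE D m) :
    src e ∈ wa D ∧ tgt e ∈ wa D := by
  obtain ⟨h1, h2, h3, h4, h5⟩ := hD
  rw [mem_wE] at he
  obtain ⟨-, hw⟩ := he
  obtain ⟨x, y, _ | _⟩ := e
  · simp only [Dm.wir, Set.mem_ofPred_eq, Bool.false_eq_true, false_and, true_and,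
      false_or, or_false] at hw
    simp only [wa, Set.mem_ofPred_eq, src_mk, tgt_false]
    omega
  · simp only [Dm.wir, Set.mem_ofPred_eq, Bool.true_eq_false, false_and, true_and,
      false_or] at hw
    simp only [wa, Set.mem_ofPred_eq, src_mk, tgt_true]
    omega

/-- A vertex reached from the wired arc by edges of `G` and wired edges is reached by edges of
`G`. -/
lemma drop_wE {D : Dm} (hD : D.Ok) {m : ℤ} {G : Finset Edg} {u v : Vtx} (hu : u ∈ wa D)
    (h : Reach (↑G ∪ ↑(wE D m) : Set Edg) u v) : ∃ u' ∈ wa D, Reach (↑G : Set Edg) u' v := by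
  induction h with
  | refl => exact ⟨u, hu, Reach.refl _ _⟩
  | @tail w w' _ hs ih =>
    obtain ⟨e, he, hcase⟩ := hs
    rcases he with he | he
    · obtain ⟨u', h1, h2⟩ := ih
      exact ⟨u', h1, h2.trans (Adj.reach ⟨e, he, hcase⟩)⟩
    · obtain ⟨h1, h2⟩ := wE_ends hD (Finset.mem_coe.1 he)
      rcases hcase with ⟨-, h4⟩ | ⟨h3, -⟩
      · exact ⟨w', h4 ▸ h2, Reach.refl _ _⟩
      · exact ⟨w', h3 ▸ h1, Reach.refl _ _⟩

/-- Every vertex of the wired arc is joined to the left side by wired edges. -/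
lemma to_left {D : Dm} (hD : D.Ok) {m : ℤ} (hm : max D.t 0 < m) {u : Vtx} (hu : u ∈ wa D) :
    ∃ y, 0 ≤ y ∧ y ≤ D.h ∧ Reach (↑(wE D m) : Set Edg) (D.l, y) u := by
  obtain ⟨h1, h2, h3, h4, h5⟩ := hD
  obtain ⟨x, y⟩ := u
  simp only [wa, Set.mem_ofPred_eq] at hu
  rcases hu with hu | hu | hu
  · refine ⟨y, by omega, by omega, ?_⟩
    obtain ⟨n, hn⟩ := Int.eq_ofNat_of_zero_le (sub_nonneg.mpr hu.2.1)
    have e : x = D.l + (n:ℤ) := by omega
    rw [e]
    apply TH291.NW.reach_h
    intro i h6 h7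
    rw [Finset.mem_coe, mem_wE, mem_RE_true]
    refine ⟨by omega, Or.inl ⟨rfl, hu.1, by simp only; omega, by simp only; omega⟩⟩
  · refine ⟨y, by omega, by omega, ?_⟩
    rw [hu.1]
    exact Reach.refl _ _
  · refine ⟨y, by omega, by omega, ?_⟩
    obtain ⟨n, hn⟩ := Int.eq_ofNat_of_zero_le (sub_nonneg.mpr hu.2.1)
    have e : x = D.l + (n:ℤ) := by omega
    rw [e]
    apply TH291.NW.reach_h
    intro i h6 h7
    rw [Finset.mem_coe, mem_wE, mem_RE_true]
    refine ⟨by omega, Or.inr (Or.inr ⟨rfl, hu.1, by simp only; omega, by simp only; omega⟩)⟩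

/-- The outer faces beyond the wired arc are dead ends: move them into the rectangle. -/
def rt (D : Dm) (f : Vtx) : Vtx :=
  if f.2 = D.h ∧ f.1 < D.t then (f.1, D.h - 1)
  else if f.2 = -1 ∧ f.1 < 0 then (f.1, 0)
  else if f.1 = D.l - 1 then (D.l, f.2) else f

/-- Dual edges which are not wired. -/
lemma step_rt {D : Dm} (hD : D.Ok) {m : ℤ} {e : Edg} (he : e ∈ RE D.l m 0 D.h) :
    (e ∈ D.wir ∧ rt D (dsrc e) = rt D (dtgt e)) ∨
      (e ∉ D.wir ∧ rt D (dsrc e) = dsrc e ∧ rt D (dtgt e) = dtgt e) := by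
  obtain ⟨h1, h2, h3, h4, h5⟩ := hD
  obtain ⟨x, y, _ | _⟩ := e
  · rw [mem_RE_false] at he
    rw [dsrc_false, dtgt_mk]
    have hy : ¬ (y = D.h ∧ x - 1 < D.t) := by omega
    have hy' : ¬ (y = D.h ∧ x < D.t) := by omega
    have hz : ¬ (y = -1 ∧ x - 1 < 0) := by omega
    have hz' : ¬ (y = -1 ∧ x < 0) := by omega
    by_cases hx : x = D.l
    · left
      refine ⟨Or.inr (Or.inl ⟨rfl, hx, he.2.2.1, he.2.2.2⟩), ?_⟩
      unfold rt
      rw [if_neg hy, if_neg hz, if_pos (by simp only; omega), if_neg hy', if_neg hz',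
        if_neg (by simp only; omega), hx]
    · right
      refine ⟨?_, ?_, ?_⟩
      · rintro (⟨h, -⟩ | ⟨-, h, -⟩ | ⟨h, -⟩)
        · simp at h
        · exact hx h
        · simp at h
      · unfold rt
        rw [if_neg hy, if_neg hz, if_neg (by simp only; omega)]
      · unfold rt
        rw [if_neg hy', if_neg hz', if_neg (by simp only; omega)]
  · rw [mem_RE_true] at he
    rw [dsrc_true, dtgt_mk]
    have hl : ¬ (x = D.l - 1) := by omega
    by_cases hw : ((x, y, true) : Edg) ∈ D.wir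
    · left
      refine ⟨hw, ?_⟩
      simp only [Dm.wir, Set.mem_ofPred_eq, Bool.true_eq_false, false_and,
        true_and, false_or] at hw
      rcases hw with hw | hw
      · have a1 : ¬ (y - 1 = D.h ∧ x < D.t) := by omega
        have a2 : ¬ (y - 1 = -1 ∧ x < 0) := by omega
        have a3 : y = D.h ∧ x < D.t := by omega
        unfold rt
        rw [if_neg a1, if_neg a2, if_neg hl, if_pos a3, hw.1]
      · have a1 : ¬ (y - 1 = D.h ∧ x < D.t) := by omega
        have a2 : y - 1 = -1 ∧ x < 0 := by omega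
        have a3 : ¬ (y = D.h ∧ x < D.t) := by omega
        have a4 : ¬ (y = -1 ∧ x < 0) := by omega
        unfold rt
        rw [if_neg a1, if_pos a2, if_neg a3, if_neg a4, if_neg hl, hw.1]
    · right
      refine ⟨hw, ?_, ?_⟩
      · have a1 : ¬ (y - 1 = D.h ∧ x < D.t) := by omega
        have a2 : ¬ (y - 1 = -1 ∧ x < 0) := by
          rintro ⟨b1, b2⟩
          exact hw (Or.inr (Or.inr ⟨rfl, by simp only; omega, by simp only; omega, by
            simp only; omega⟩))
        unfold rt
        rw [if_neg a1, if_neg a2, if_neg hl]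
      · have a1 : ¬ (y = D.h ∧ x < D.t) := by
          rintro ⟨b1, b2⟩
          exact hw (Or.inl ⟨rfl, b1, by simp only; omega, b2⟩)
        have a2 : ¬ (y = -1 ∧ x < 0) := by omega
        unfold rt
        rw [if_neg a1, if_neg a2, if_neg hl]

lemma reach_rt {D : Dm} (hD : D.Ok) {m : ℤ} {G : Finset Edg} {f g : Vtx}
    (h : DReach (↑(RE D.l m 0 D.h \ G) : Set Edg) f g) :
    DReach (↑(RE D.l m 0 D.h \ (G ∪ wE D m)) : Set Edg) (rt D f) (rt D g) := by
  classical
  induction h with
  | refl => exact DReach.refl _ _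
  | @tail w w' _ hs ih =>
    refine ih.trans ?_
    obtain ⟨e, he, hcase⟩ := hs
    rw [Finset.mem_coe, Finset.mem_sdiff] at he
    have key : DReach (↑(RE D.l m 0 D.h \ (G ∪ wE D m)) : Set Edg) (rt D (dsrc e))
        (rt D (dtgt e)) := by
      rcases step_rt hD he.1 with ⟨-, h2⟩ | ⟨h1, h2, h3⟩
      · rw [h2]; exact DReach.refl _ _
      · rw [h2, h3]
        refine DAdj.reach ⟨e, ?_, Or.inl ⟨rfl, rfl⟩⟩
        rw [Finset.mem_coe, Finset.mem_sdiff, Finset.mem_union, mem_wE]
        exact ⟨he.1, fun h => h.elim he.2 fun h' => h1 h'.2⟩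
    rcases hcase with ⟨h1, h2⟩ | ⟨h1, h2⟩
    · rw [← h1, ← h2]; exact key
    · rw [← h1, ← h2]; exact key.symm

theorem dom : S_DOM := by
  classical
  intro D hD m hm hmr
  have hD' := hD
  obtain ⟨k1, k2, k3, k4, k5⟩ := hD'
  have hab : D.l < m := by omega
  refine ⟨{f | f.2 = D.h ∧ D.t ≤ f.1 ∧ f.1 < m}, {f | f.2 = -1 ∧ 0 ≤ f.1 ∧ f.1 < m}, ?_, ?_⟩
  swap
  · rintro f (hf | hf)
    · exact Or.inr hf.1
    · exact Or.inl hf.1
  intro G hG
  have hGw : G ∪ wE D m ⊆ RE D.l m 0 D.h :=
    Finset.union_subset hG fun e he => (mem_wE.1 he).1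
  have hdual := rect_dual hab k3 (G ∪ wE D m) hGw
  rw [Finset.coe_union] at hdual
  constructor
  · rintro ⟨u, hu, v, hv, hr⟩ ⟨f, hf, g, hg, hd⟩
    obtain ⟨y, hy0, hy1, hy2⟩ := to_left hD hm hu
    refine hdual.1 ⟨(D.l, y), ⟨rfl, hy0, hy1⟩, v, hv,
      (hy2.mono Set.subset_union_right).trans (hr.mono Set.subset_union_left)⟩ ?_
    rw [coe_dmp, reach_dl] at hd
    have h1 := reach_rt hD hd
    have hf' : rt D f = f := by
      unfold rt
      have := hf.1
      have := hf.2.1
      rw [if_neg (by omega), if_neg (by omega), if_neg (by omega)]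
    have hg' : rt D g = g := by
      unfold rt
      have := hg.1
      have := hg.2.1
      rw [if_neg (by omega), if_neg (by omega), if_neg (by omega)]
    rw [hf', hg', ← reach_dl, ← coe_dmp] at h1
    exact ⟨g, by have := hg.1; simp only [Set.mem_ofPred_eq]; omega, f, hf.1, h1.symm⟩
  · intro hno
    by_contra hcon
    apply hno
    have h1 : ¬ Cn (lsd D.l 0 D.h) (lsd m 0 D.h) (↑G ∪ ↑(wE D m) : Set Edg) := by
      rintro ⟨u, hu, v, hv, hr⟩
      obtain ⟨u', h2, h3⟩ := drop_wE hD (Or.inr (Or.inl hu)) hr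
      exact hcon ⟨u', h2, v, hv, h3⟩
    have h2 : Cn {v : Vtx | v.2 = 0 - 1} {v : Vtx | v.2 = D.h}
        (↑(dmp (RE D.l m 0 D.h \ (G ∪ wE D m))) : Set Edg) := by
      by_contra h3
      exact h1 (hdual.2 h3)
    obtain ⟨f, hf, g, hg, hr⟩ := h2
    rw [coe_dmp, reach_dl] at hr
    have hf' : f.2 = -1 := by simpa using hf
    have hg' : g.2 = D.h := hg
    have hne : f ≠ g := by
      intro h
      rw [h, hg'] at hf'
      omega
    -- edges of the dual path
    have hedge : ∀ e ∈ (↑(RE D.l m 0 D.h \ (G ∪ wE D m)) : Set Edg),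
        e ∈ RE D.l m 0 D.h ∧ e ∉ D.wir := by
      intro e he
      rw [Finset.mem_coe, Finset.mem_sdiff, Finset.mem_union, mem_wE] at he
      exact ⟨he.1, fun h => he.2 (Or.inr ⟨he.1, h⟩)⟩
    have hfJ : 0 ≤ f.1 ∧ f.1 < m := by
      rcases Relation.ReflTransGen.cases_head hr with h | ⟨w, ⟨e, he, hcase⟩, -⟩
      · exact absurd h hne
      · obtain ⟨h3, h4⟩ := hedge e he
        obtain ⟨x, y, _ | _⟩ := e
        · rw [mem_RE_false] at h3
          rcases hcase with ⟨h5, -⟩ | ⟨-, h5⟩
          · rw [dsrc_false] at h5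
            rw [← h5] at hf'
            simp only at hf'
            omega
          · rw [dtgt_mk] at h5
            rw [← h5] at hf'
            simp only at hf'
            omega
        · rw [mem_RE_true] at h3
          rcases hcase with ⟨h5, -⟩ | ⟨-, h5⟩
          · rw [dsrc_true] at h5
            rw [← h5] at hf' ⊢
            simp only at hf' ⊢
            refine ⟨?_, by omega⟩
            by_contra hx
            exact h4 (Or.inr (Or.inr ⟨rfl, by simp only; omega, by simp only; omega, by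
              simp only; omega⟩))
          · rw [dtgt_mk] at h5
            rw [← h5] at hf'
            simp only at hf'
            omega
    have hgI : D.t ≤ g.1 ∧ g.1 < m := by
      rcases Relation.ReflTransGen.cases_tail hr with h | ⟨w, -, ⟨e, he, hcase⟩⟩
      · exact absurd h.symm hne
      · obtain ⟨h3, h4⟩ := hedge e he
        obtain ⟨x, y, _ | _⟩ := e
        · rw [mem_RE_false] at h3
          rcases hcase with ⟨-, h5⟩ | ⟨h5, -⟩
          · rw [dtgt_mk] at h5
            rw [← h5] at hg'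
            simp only at hg'
            omega
          · rw [dsrc_false] at h5
            rw [← h5] at hg'
            simp only at hg'
            omega
        · rw [mem_RE_true] at h3
          rcases hcase with ⟨-, h5⟩ | ⟨h5, -⟩
          · rw [dtgt_mk] at h5
            rw [← h5] at hg' ⊢
            simp only at hg' ⊢
            refine ⟨?_, by omega⟩
            by_contra hx
            exact h4 (Or.inl ⟨rfl, hg', by simp only; omega, by simp only; omega⟩)
          · rw [dsrc_true] at h5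
            rw [← h5] at hg'
            simp only at hg'
            omega
    refine ⟨g, ⟨hg', hgI.1, hgI.2⟩, f, ⟨hf', hfJ.1, hfJ.2⟩, ?_⟩
    rw [coe_dmp, reach_dl]
    refine (hr.mono ?_).symm
    intro e he
    rw [Finset.mem_coe, Finset.mem_sdiff, Finset.mem_union] at he
    rw [Finset.mem_coe, Finset.mem_sdiff]
    exact ⟨he.1, fun h => he.2 (Or.inl h)⟩

end Pool.Agent.N433.EW
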